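import Pool.Agent.Q298.EdgeRemoval.Sums

/-!
# MP_25bd62_pr, Q1: `E[L_n] = Θ(log n)`

If the edge `(a, b)` is present in the output, then it comes last in the order among all the edges
into `b` or last among all the edges out of `a`. Restricting the first condition to the edges into
`b` with even difference and the second one to the edges out of `a` with odd difference makes the
conditions along a directed path involve disjoint sets of edges, and a factor at most `3` per edge
is lost. So the probability of a path is at most the product of `3 (1 / (b - 1) + 1 / (n - a))` over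
its edges. Super-solutions of the corresponding transfer operator give both bounds: there are no
paths with more than `C log n` edges, and the vertex `⌊n / 2⌋`, which is joined to `1` by a directed
path since every vertex except `1` has an in-edge, is not reached by a path with at most `c log n`
edges.
-/

namespace Pool.Agent.Results.MP_25bd62_pr.LogarithmicLength

open Filter Q298.EdgeRemoval

lemma upper {n : ℕ} (hn : 2 ≤ n) (hL : 1 ≤ Real.log n) :
    expLen n ≤ (26 / Real.log 2 + 2) * Real.log n := by
  have hn0 : (0 : ℝ) < n := by positivity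
  have hl2 : 0 < Real.log 2 := Real.log_pos (by norm_num)
  have hx : 0 < 26 * Real.log n / Real.log 2 := by positivity
  set K := ⌈26 * Real.log n / Real.log 2⌉₊ with hK
  have h1 : 26 * Real.log n / Real.log 2 ≤ K := Nat.le_ceil _
  have h2 : (K : ℝ) < 26 * Real.log n / Real.log 2 + 1 := Nat.ceil_lt_add_one hx.le
  have hK1 : 1 ≤ K := Nat.one_le_ceil_iff.2 hx
  have h3 := expLen_upper (n := n) (by omega) K hK1
  have h4 : (n : ℝ) ^ 26 * (1 / 2) ^ K ≤ 1 := by
    have e1 : (n : ℝ) ^ 26 = Real.exp (26 * Real.log n) := by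
      have : (26 : ℝ) * Real.log n = ((26 : ℕ) : ℝ) * Real.log n := by norm_num
      rw [this, Real.exp_nat_mul, Real.exp_log hn0]
    have e2 : ((1 : ℝ) / 2) ^ K = Real.exp (-(K * Real.log 2)) := by
      rw [Real.exp_neg, Real.exp_nat_mul, Real.exp_log (by norm_num), one_div, inv_pow]
    rw [e1, e2, ← Real.exp_add, Real.exp_le_one_iff]
    rw [div_le_iff₀ hl2] at h1
    linarith
  have h5 : expLen n ≤ 26 * Real.log n / Real.log 2 + 2 := by linarith
  refine h5.trans ?_
  have : 26 * Real.log n / Real.log 2 = 26 / Real.log 2 * Real.log n := by ring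
  rw [this]
  nlinarith

lemma lower {n : ℕ} (hn : 2 ≤ n) (hL : 32 ≤ Real.log n) :
    (1 / 32) * Real.log n ≤ expLen n := by
  have hn0 : (0 : ℝ) < n := by positivity
  have hl2 : 0 < Real.log 2 := Real.log_pos (by norm_num)
  have hl2' : Real.log 2 < 0.7 := by have := Real.log_two_lt_d9; linarith
  have hs : (n : ℝ) / 4 ≤ ((n / 2 : ℕ) : ℝ) := by
    have h : n ≤ 4 * (n / 2) := by omega
    have h' : (n : ℝ) ≤ 4 * ((n / 2 : ℕ) : ℝ) := by exact_mod_cast h
    linarith
  set s : ℝ := ((n / 2 : ℕ) : ℝ) with hsdef
  have hs0 : 0 < s := by linarith [div_pos hn0 (by norm_num : (0 : ℝ) < 4)]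
  have h4 : Real.log 4 = 2 * Real.log 2 := by
    rw [show (4 : ℝ) = 2 ^ 2 by norm_num, Real.log_pow]; norm_num
  have hlogs : Real.log n - 2 * Real.log 2 ≤ Real.log s := by
    have := Real.log_le_log (by positivity) hs
    rw [Real.log_div hn0.ne' (by norm_num), h4] at this
    exact this
  have hy0 : 0 < √s / 2 := by have := Real.sqrt_pos.2 hs0; positivity
  have hlogy : Real.log (√s / 2) = Real.log s / 2 - Real.log 2 := by
    rw [Real.log_div (Real.sqrt_pos.2 hs0).ne' (by norm_num), Real.log_sqrt hs0.le]
  have hlogy' : Real.log n / 2 - 1.4 ≤ Real.log (√s / 2) := by rw [hlogy]; linarith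
  have h24 : 0 < Real.log 24 := Real.log_pos (by norm_num)
  have h24' : Real.log 24 ≤ 4 := by
    have h := Real.log_le_log (by norm_num : (0 : ℝ) < 24) (by norm_num : (24 : ℝ) ≤ 2 ^ 5)
    rw [Real.log_pow] at h
    push_cast at h
    linarith
  set M := ⌊Real.log (√s / 2) / Real.log 24⌋₊ with hM
  have hq : 0 ≤ Real.log (√s / 2) / Real.log 24 := by
    apply div_nonneg _ h24.le
    linarith
  have hM1 : (M : ℝ) ≤ Real.log (√s / 2) / Real.log 24 := Nat.floor_le hq
  have hM2 : Real.log (√s / 2) / Real.log 24 < M + 1 := Nat.lt_floor_add_one _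
  have hM3 : 2 * (24 : ℝ) ^ M ≤ √s := by
    rw [le_div_iff₀ h24] at hM1
    have e1 : (24 : ℝ) ^ M = Real.exp (M * Real.log 24) := by
      rw [Real.exp_nat_mul, Real.exp_log (by norm_num)]
    have e2 := Real.exp_le_exp.2 hM1
    rw [Real.exp_log hy0, ← e1] at e2
    linarith
  have h5 := expLen_lower hn M hM3
  have h6 : (Real.log n / 2 - 1.4) / 4 ≤ Real.log (√s / 2) / Real.log 24 := by
    calc _ ≤ Real.log (√s / 2) / 4 := by
          apply div_le_div_of_nonneg_right hlogy' (by norm_num)
      _ ≤ _ := by
          apply div_le_div_of_nonneg_left _ h24 h24'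
          linarith
  linarith

/-- `E[L_n] = Θ(log n)`. -/
theorem result : ∃ c C : ℝ, 0 < c ∧ c ≤ C ∧
    ∀ᶠ n : ℕ in atTop, c * Real.log n ≤ expLen n ∧ expLen n ≤ C * Real.log n := by
  have hl2 : 0 < Real.log 2 := Real.log_pos (by norm_num)
  refine ⟨1 / 32, 26 / Real.log 2 + 2, by norm_num, ?_, ?_⟩
  · have : 0 < 26 / Real.log 2 := by positivity
    linarith
  · have h := (Real.tendsto_log_atTop.comp tendsto_natCast_atTop_atTop).eventually_ge_atTop 32
    filter_upwards [h, eventually_ge_atTop 2] with n h1 h2
    simp only [Function.comp_apply] at h1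
    exact ⟨lower h2 h1, upper h2 (by linarith)⟩

end Pool.Agent.Results.MP_25bd62_pr.LogarithmicLength
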